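import Mathlib
import Pool.Agent.Lib.MP_f73734_co.Defs
import Pool.Agent.Lib.MP_f73734_co.Final

namespace Pool.Agent.Results.MP_f73734_co.LinearBase

open Pool.Agent.Lib.MP_f73734_co

/-- **Affirmative answer to Q1**, with the explicit constant `k = 1 / 65536`: for every `n ≥ 2` the
number `f(n)` of Hamiltonian circuits of the `n`-dimensional cube is larger than
`(k n) ^ (2 ^ n)`. -/
theorem result : ∃ k : ℝ, k = 1 / 65536 ∧ 0 < k ∧ k ≤ 1 / 2 ∧
    ∀ n : ℕ, 2 ≤ n → (k * n) ^ (2 ^ n) < (hamCount (cube n) : ℝ) := by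
  refine ⟨1 / 65536, rfl, by norm_num, by norm_num, ?_⟩
  intro n hn
  have h := ham_lower n hn
  have h1 : (1 / 65536 : ℝ) * n = (n : ℝ) / 65536 := by ring
  rw [h1]
  exact h

end Pool.Agent.Results.MP_f73734_co.LinearBase
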